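import Pool.Agent.Helper26.HB.Goals

set_option autoImplicit false

open scoped commutatorElement

namespace Pool.Agent.Helper93.HB

open Pool.Agent.Helper26.HB

theorem comm_le_center (N : Type) [Group N] (h : Cl2 N) : commutator N ≤ Subgroup.center N := by
  rw [commutator_def, Subgroup.commutator_le]
  intro x _ y _
  rw [Subgroup.mem_center_iff]
  intro z
  exact (h x y z).symm

theorem gS1 : G_S1 := by
  classical
  intro N _ hcl hxy
  obtain ⟨x, y, hc⟩ := hxy
  have hle := comm_le_center N hcl
  have hmem : ⁅x, y⁆ ∈ Subgroup.center N := by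
    apply hle
    rw [commutator_def]
    exact Subgroup.commutator_mem_commutator (Subgroup.mem_top x) (Subgroup.mem_top y)
  letI : CommGroup (Subgroup.center N) :=
    { (inferInstance : Group (Subgroup.center N)) with
      mul_comm := fun a b => Subtype.ext ((Subgroup.mem_center_iff.1 b.2 a.1)) }
  let c : Additive (Subgroup.center N) := Additive.ofMul ⟨⁅x, y⁆, hmem⟩
  let f : ℤ →+ Additive (Subgroup.center N) := zmultiplesHom _ c
  have hf : Function.Injective f := by
    rw [injective_iff_map_eq_zero]
    intro k hk
    have h1 : k • c = 0 := by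
      have : f k = k • c := by
        simp [f, zmultiplesHom_apply]
      rw [← this]; exact hk
    have h2 : (⟨⁅x, y⁆, hmem⟩ : Subgroup.center N) ^ k = 1 := by
      have := congrArg Additive.toMul h1
      simpa [c, toMul_zsmul] using this
    have h3 : ⁅x, y⁆ ^ k = 1 := by
      have := congrArg Subtype.val h2
      simpa using this
    by_contra hk0
    have h4 : ⁅x, y⁆ ^ k.natAbs = 1 := by
      rcases Int.natAbs_eq k with h | h
      · rw [h, zpow_natCast] at h3; exact h3
      · rw [h, zpow_neg, zpow_natCast, inv_eq_one] at h3; exact h3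
    exact hc k.natAbs (Int.natAbs_pos.mpr hk0) h4
  obtain ⟨l, hl⟩ := Module.Baer.extension_property_addMonoidHom (M := ℤ)
    (N := Additive (Subgroup.center N)) (Module.Baer.of_divisible ℝ) f hf
    (Int.castAddHom ℝ)
  refine ⟨fun k => if hk : k ∈ Subgroup.center N then l (Additive.ofMul ⟨k, hk⟩) else 0, ?_, x, y, ?_⟩
  · intro k hk k' hk'
    have a1 := hle hk
    have a2 := hle hk'
    have a3 := mul_mem a1 a2
    simp only [dif_pos a1, dif_pos a2, dif_pos a3]
    rw [← map_add]
    rfl
  · simp only [dif_pos hmem]
    have h1 : l (f 1) = (1 : ℝ) := by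
      have := DFunLike.congr_fun hl (1 : ℤ)
      simpa using this
    have h2 : f 1 = c := by simp [f, zmultiplesHom_apply]
    rw [h2] at h1
    change l c ≠ 0
    rw [h1]; exact one_ne_zero

end Pool.Agent.Helper93.HB
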